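import Pool.Agent.H62.BC.Targets

/-!
Bounded catalysis, row A2: `E_aa x - E_bb x` is a sum of three powers of nilpotent matrices.
-/

open TensorProduct Module

namespace Pool.Agent.H96.BC

open Pool.Agent.H62.BC

universe u

theorem pf_A2 (h1 : T_A1.{u}) : T_A2.{u} := by
  intro R _ q j a b x hab hj hq
  obtain ⟨M, hM, hMj⟩ := h1 R q j a b (-x) hab hj hq
  obtain ⟨M₂, hM₂, hM₂j⟩ := h1 R q j a b x hab hj hq
  obtain ⟨M₃, hM₃, hM₃j⟩ := h1 R q j b a (-x) hab.symm hj hq
  let E : Matrix (Fin q) (Fin q) R := Matrix.single b a 1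
  have hE : E * E = 0 := Matrix.single_mul_single_of_ne 1 b a b hab 1
  let g : (Matrix (Fin q) (Fin q) R)ˣ :=
    { val := 1 + E
      inv := 1 - E
      val_inv := by
        rw [add_mul, mul_sub, mul_sub, hE]
        simp
      inv_val := by
        rw [sub_mul, mul_add, mul_add, hE]
        simp }
  refine ⟨g * M * (g⁻¹ : (Matrix (Fin q) (Fin q) R)ˣ), M₂, M₃, ?_, hM₂, hM₃, ?_⟩
  · obtain ⟨n, hn⟩ := hM
    exact ⟨n, by rw [Units.conj_pow, hn]; simp⟩
  · rw [Units.conj_pow, hMj, hM₂j, hM₃j]
    change _ = (1 + E) * Matrix.single a b (-x) * (1 - E) + _ + _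
    have e1 : E * Matrix.single a b (-x) = Matrix.single b b (-x) := by
      simp only [E]
      rw [Matrix.single_mul_single_same, one_mul]
    have e2 : Matrix.single a b (-x) * E = Matrix.single a a (-x) := by
      simp only [E]
      rw [Matrix.single_mul_single_same, mul_one]
    have e3 : Matrix.single b b (-x) * E = Matrix.single b a (-x) := by
      simp only [E]
      rw [Matrix.single_mul_single_same, mul_one]
    rw [add_mul, one_mul, e1, mul_sub, mul_one, add_mul, e2, e3]
    simp only [← Matrix.single_neg]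
    abel

end Pool.Agent.H96.BC
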